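import Pool.Agent.Helper41.LD7.Defs

/-!
# Project LD7, block TTA7: the functions `A₀ x ^ (n / P) + c (n / P)` and their derivatives
-/

set_option autoImplicit false

namespace Pool.Agent.Helper94.LD7

open Set
open Pool.Agent.Helper41.LD5 (fp pwf)

variable {A₀ x y a δ : ℝ} {c : ℝ → ℝ} {P n n' T : ℕ}

theorem root_pow (hx : 0 < x) (P k : ℕ) : (x ^ (1 / (P : ℝ))) ^ k = x ^ ((k : ℝ) / P) := by
  rw [← Real.rpow_natCast, ← Real.rpow_mul hx.le]
  congr 1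
  ring

theorem fp_pos (hA : 0 < A₀) (hP : 1 ≤ P) (hn : 1 ≤ n) (hx : 0 < x) : 0 < fp A₀ P n x := by
  have h1 : (0 : ℝ) < n := by exact_mod_cast hn
  have h2 : (0 : ℝ) < P := by exact_mod_cast hP
  have h3 : 0 < x ^ ((n : ℝ) / P - 1) := Real.rpow_pos_of_pos hx _
  unfold fp
  positivity

theorem fp_nonneg (hA : 0 < A₀) (hx : 0 < x) : 0 ≤ fp A₀ P n x := by
  have h3 : 0 < x ^ ((n : ℝ) / P - 1) := Real.rpow_pos_of_pos hx _
  unfold fp
  positivity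

theorem fp_mono (hA : 0 < A₀) (hP : 1 ≤ P) (hn : P ≤ n) (hx : 0 < x) (hxy : x ≤ y) : fp A₀ P n x ≤ fp A₀ P n y := by
  have h1 : (P : ℝ) ≤ n := by exact_mod_cast hn
  have h2 : (0 : ℝ) < P := by exact_mod_cast hP
  have h3 : (0 : ℝ) ≤ (n : ℝ) / P - 1 := by
    rw [sub_nonneg, le_div_iff₀ h2]; linarith
  have h4 : x ^ ((n : ℝ) / P - 1) ≤ y ^ ((n : ℝ) / P - 1) := Real.rpow_le_rpow hx.le hxy h3
  unfold fp
  exact mul_le_mul_of_nonneg_left h4 (by positivity)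

theorem fp_step (hA : 0 < A₀) (hP : 1 ≤ P) (hx : 0 < x) (hnn : n ≤ n') :
    fp A₀ P n x * (x ^ (1 / (P : ℝ))) ^ (n' - n) ≤ fp A₀ P n' x := by
  have h2 : (0 : ℝ) < P := by exact_mod_cast hP
  have h1 : (n : ℝ) ≤ n' := by exact_mod_cast hnn
  have e1 : x ^ ((n : ℝ) / P - 1) * x ^ (((n' - n : ℕ) : ℝ) / P) = x ^ ((n' : ℝ) / P - 1) := by
    rw [← Real.rpow_add hx]
    congr 1
    rw [Nat.cast_sub hnn]
    field_simp
    ring
  have h3 : 0 < x ^ ((n' : ℝ) / P - 1) := Real.rpow_pos_of_pos hx _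
  rw [root_pow hx]
  unfold fp
  calc A₀ * ((n : ℝ) / P) * x ^ ((n : ℝ) / P - 1) * x ^ (((n' - n : ℕ) : ℝ) / P)
      = A₀ * ((n : ℝ) / P) * (x ^ ((n : ℝ) / P - 1) * x ^ (((n' - n : ℕ) : ℝ) / P)) := by ring
    _ = A₀ * ((n : ℝ) / P) * x ^ ((n' : ℝ) / P - 1) := by rw [e1]
    _ ≤ A₀ * ((n' : ℝ) / P) * x ^ ((n' : ℝ) / P - 1) := by
        refine mul_le_mul_of_nonneg_right ?_ h3.le
        refine mul_le_mul_of_nonneg_left ?_ hA.le
        exact div_le_div_of_nonneg_right h1 h2.le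

/-- monotone in `n` -/
theorem fp_le (hA : 0 < A₀) (hP : 1 ≤ P) (hx : 1 ≤ x) (hnn : n ≤ n') : fp A₀ P n x ≤ fp A₀ P n' x := by
  have hx0 : 0 < x := by linarith
  refine le_trans ?_ (fp_step hA hP hx0 hnn)
  have h1 : 1 ≤ (x ^ (1 / (P : ℝ))) ^ (n' - n) := one_le_pow₀ (Real.one_le_rpow hx (by positivity))
  exact le_mul_of_one_le_right (fp_nonneg hA hx0) h1

theorem fp_step_le (hA : 0 < A₀) (hP : 1 ≤ P) (hn : 1 ≤ n) (hx : 1 ≤ x) (k : ℕ) :
    fp A₀ P (n + k) x ≤ (2 * x) ^ k * fp A₀ P n x := by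
  have hx0 : 0 < x := by linarith
  have h2 : (0 : ℝ) < P := by exact_mod_cast hP
  have hP1 : (1 : ℝ) ≤ P := by exact_mod_cast hP
  have e1 : x ^ (((n + k : ℕ) : ℝ) / P - 1) = x ^ ((n : ℝ) / P - 1) * x ^ ((k : ℝ) / P) := by
    rw [← Real.rpow_add hx0]
    congr 1
    push_cast
    ring
  have h3 : x ^ ((k : ℝ) / P) ≤ x ^ k := by
    rw [← Real.rpow_natCast x k]
    refine Real.rpow_le_rpow_of_exponent_le hx ?_
    rw [div_le_iff₀ h2]
    have : (0 : ℝ) ≤ k := Nat.cast_nonneg k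
    nlinarith
  have h4 : n + k ≤ 2 ^ k * n := by
    have h3 : k + 1 ≤ 2 ^ k := Nat.lt_two_pow_self
    nlinarith [Nat.mul_le_mul_right n h3, Nat.mul_le_mul_left k hn]
  have h5 : ((n + k : ℕ) : ℝ) ≤ 2 ^ k * n := by exact_mod_cast h4
  have h6 : 0 < x ^ ((n : ℝ) / P - 1) := Real.rpow_pos_of_pos hx0 _
  have h7 : 0 < x ^ ((k : ℝ) / P) := Real.rpow_pos_of_pos hx0 _
  unfold fp
  rw [e1, mul_pow]
  calc A₀ * (((n + k : ℕ) : ℝ) / P) * (x ^ ((n : ℝ) / P - 1) * x ^ ((k : ℝ) / P))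
      ≤ A₀ * ((2 ^ k * n) / P) * (x ^ ((n : ℝ) / P - 1) * x ^ k) := by
        refine mul_le_mul ?_ ?_ (by positivity) (by positivity)
        · exact mul_le_mul_of_nonneg_left (div_le_div_of_nonneg_right h5 h2.le) hA.le
        · exact mul_le_mul_of_nonneg_left h3 h6.le
    _ = 2 ^ k * x ^ k * (A₀ * ((n : ℝ) / P) * x ^ ((n : ℝ) / P - 1)) := by ring

/-- small exponents -/
theorem fp_small (hA : 0 < A₀) (hP : 1 ≤ P) (hn : n ≤ P) (hx : 1 ≤ x) : fp A₀ P n x ≤ A₀ := by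
  have h2 : (0 : ℝ) < P := by exact_mod_cast hP
  have h1 : (n : ℝ) ≤ P := by exact_mod_cast hn
  have h3 : (n : ℝ) / P ≤ 1 := by rw [div_le_one h2]; exact h1
  have h4 : x ^ ((n : ℝ) / P - 1) ≤ 1 := Real.rpow_le_one_of_one_le_of_nonpos hx (by linarith)
  have h5 : 0 < x ^ ((n : ℝ) / P - 1) := Real.rpow_pos_of_pos (by linarith) _
  have h6 : (0 : ℝ) ≤ (n : ℝ) / P := by positivity
  unfold fp
  calc A₀ * ((n : ℝ) / P) * x ^ ((n : ℝ) / P - 1) ≤ A₀ * 1 * 1 := by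
        refine mul_le_mul (mul_le_mul_of_nonneg_left h3 hA.le) h4 h5.le (by linarith)
    _ = A₀ := by ring

/-- small changes of the point -/
theorem fp_near (hA : 0 < A₀) (hP : 1 ≤ P) (ha : 1 ≤ a) (hax : a ≤ x) (hxa : x ≤ a + δ) (hn : n ≤ T) (hδ : (T : ℝ) * δ ≤ 1 / 2) :
    fp A₀ P n x ≤ 2 * fp A₀ P n a := by
  have ha0 : 0 < a := by linarith
  have hx0 : 0 < x := by linarith
  have hδ0 : 0 ≤ δ := by linarith
  have h2 : (0 : ℝ) < P := by exact_mod_cast hP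
  have hP1 : (1 : ℝ) ≤ P := by exact_mod_cast hP
  have hnT : (n : ℝ) ≤ T := by exact_mod_cast hn
  have hn0 : (0 : ℝ) ≤ n := Nat.cast_nonneg n
  set s : ℝ := (n : ℝ) / P - 1 with hs
  have hsT : s ≤ T := by
    have : (n : ℝ) / P ≤ n := by
      rw [div_le_iff₀ h2]; nlinarith
    linarith
  have h4 : x ^ s ≤ 2 * a ^ s := by
    have has : 0 < a ^ s := Real.rpow_pos_of_pos ha0 _
    rcases le_or_gt s 0 with h0 | h0
    · have h5 : x ^ s ≤ a ^ s := Real.rpow_le_rpow_of_nonpos ha0 hax h0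
      linarith
    · have h5 : x ≤ a * Real.exp δ := by
        have h6 : δ + 1 ≤ Real.exp δ := Real.add_one_le_exp δ
        nlinarith
      have h6 : x ^ s ≤ (a * Real.exp δ) ^ s := Real.rpow_le_rpow hx0.le h5 h0.le
      rw [Real.mul_rpow ha0.le (Real.exp_pos _).le, ← Real.exp_mul] at h6
      have h7 : δ * s ≤ 1 / 2 := by
        have : δ * s ≤ δ * T := mul_le_mul_of_nonneg_left hsT hδ0
        linarith
      have h8 : Real.exp (δ * s) ≤ Real.exp (1 / 2) := Real.exp_le_exp.mpr h7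
      have h9 : Real.exp (1 / 2) ≤ 2 := by
        have h10 : Real.exp (1 / 2) * Real.exp (1 / 2) = Real.exp 1 := by rw [← Real.exp_add]; norm_num
        have h11 : Real.exp 1 < 2.7182818286 := Real.exp_one_lt_d9
        have h12 : 0 < Real.exp (1 / 2) := Real.exp_pos _
        nlinarith
      have h10 : a ^ s * Real.exp (δ * s) ≤ a ^ s * 2 := mul_le_mul_of_nonneg_left (h8.trans h9) has.le
      linarith
  unfold fp
  calc A₀ * ((n : ℝ) / P) * x ^ s ≤ A₀ * ((n : ℝ) / P) * (2 * a ^ s) := mul_le_mul_of_nonneg_left h4 (by positivity)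
    _ = 2 * (A₀ * ((n : ℝ) / P) * a ^ s) := by ring

theorem pwf_deriv (c : ℝ → ℝ) (hx : 0 < x) : HasDerivAt (pwf A₀ c P n) (fp A₀ P n x) x := by
  have h := ((Real.hasDerivAt_rpow_const (x := x) (p := (n : ℝ) / P) (Or.inl hx.ne')).const_mul A₀).add_const (c ((n : ℝ) / P))
  have e : fp A₀ P n x = A₀ * ((n : ℝ) / P * x ^ ((n : ℝ) / P - 1)) := by unfold fp; ring
  rw [e]
  exact h

theorem pwf_meas (A₀ : ℝ) (c : ℝ → ℝ) (P n : ℕ) : Measurable (pwf A₀ c P n) := by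
  unfold pwf
  fun_prop

theorem pwf_cont (A₀ : ℝ) (c : ℝ → ℝ) (P n : ℕ) : ContinuousOn (pwf A₀ c P n) (Ioi 0) := by
  intro z hz
  exact (pwf_deriv (A₀ := A₀) (P := P) (n := n) c hz).continuousAt.continuousWithinAt

theorem pwf_mono (hA : 0 < A₀) (hx : 0 < x) (hxy : x ≤ y) : pwf A₀ c P n x ≤ pwf A₀ c P n y := by
  have h1 : x ^ ((n : ℝ) / P) ≤ y ^ ((n : ℝ) / P) := Real.rpow_le_rpow hx.le hxy (by positivity)
  have h2 := mul_le_mul_of_nonneg_left h1 hA.le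
  unfold pwf
  linarith

/-- `U y - U x ≤ V y (y - x)` -/
theorem pwf_sub (hA : 0 < A₀) (hP : 1 ≤ P) (hn : P ≤ n) (hx : 0 < x) (hxy : x ≤ y) :
    pwf A₀ c P n y - pwf A₀ c P n x ≤ fp A₀ P n y * (y - x) := by
  have hy : 0 < y := by linarith
  have h1 : (P : ℝ) ≤ n := by exact_mod_cast hn
  have h2 : (0 : ℝ) < P := by exact_mod_cast hP
  set s : ℝ := (n : ℝ) / P with hs
  have hs1 : 1 ≤ s := by rw [hs, le_div_iff₀ h2]; linarith
  have h3 : -1 ≤ x / y - 1 := by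
    have : 0 ≤ x / y := by positivity
    linarith
  have h4 := one_add_mul_self_le_rpow_one_add h3 hs1
  have e1 : 1 + (x / y - 1) = x / y := by ring
  rw [e1, Real.div_rpow hx.le hy.le] at h4
  have hys : 0 < y ^ s := Real.rpow_pos_of_pos hy _
  rw [le_div_iff₀ hys] at h4
  have e2 : y ^ (s - 1) = y ^ s / y := by rw [Real.rpow_sub hy, Real.rpow_one]
  have h5 : y ^ s - x ^ s ≤ s * y ^ (s - 1) * (y - x) := by
    rw [e2]
    have e3 : s * (y ^ s / y) * (y - x) = y ^ s - (1 + s * (x / y - 1)) * y ^ s := by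
      field_simp
      ring
    rw [e3]
    linarith
  have h6 := mul_le_mul_of_nonneg_left h5 hA.le
  unfold pwf fp
  rw [← hs]
  calc A₀ * y ^ s + c s - (A₀ * x ^ s + c s) = A₀ * (y ^ s - x ^ s) := by ring
    _ ≤ A₀ * (s * y ^ (s - 1) * (y - x)) := h6
    _ = A₀ * s * y ^ (s - 1) * (y - x) := by ring

/-- `V` as a polynomial in `x ^ (1 / P)` -/
theorem fp_eq (hP : 1 ≤ P) (hx : 0 < x) : fp A₀ P n x = A₀ / P * x⁻¹ * (n * (x ^ (1 / (P : ℝ))) ^ n) := by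
  have h2 : (0 : ℝ) < P := by exact_mod_cast hP
  rw [root_pow hx]
  unfold fp
  rw [Real.rpow_sub hx, Real.rpow_one]
  field_simp

end Pool.Agent.Helper94.LD7
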