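import Pool.Agent.Helper41.LD7.Defs
import Pool.Agent.Helper94.LD6.H4

/-!
# Project LD7, block SH7: one product of `s` Haar functions at the times `g n + κ i`
-/

set_option autoImplicit false

namespace Pool.Agent.Helper94.LD7

open Pool.Agent.Helper41.LD6 (hr Qs)
open Pool.Agent.Helper41.LD7 (sp)
open Pool.Agent.Helper94.LD6 (hr_abs_le prod_hr_abs_le hr_zero)

/-- partial sums of a function bounded by `1` -/
theorem range_diff (f : ℕ → ℝ) (hf : ∀ n, |f n| ≤ 1) {a b D : ℕ} (h1 : a ≤ b + D) (h2 : b ≤ a + D) :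
    |∑ n ∈ Finset.range a, f n - ∑ n ∈ Finset.range b, f n| ≤ D := by
  have key : ∀ m m' : ℕ, m ≤ m' → |∑ n ∈ Finset.range m', f n - ∑ n ∈ Finset.range m, f n| ≤ ((m' - m : ℕ) : ℝ) := by
    intro m m' hm
    rw [← Finset.sum_Ico_eq_sub _ hm]
    refine (Finset.abs_sum_le_sum_abs _ _).trans ?_
    refine (Finset.sum_le_sum fun n _ => hf n).trans ?_
    simp
  rcases le_total a b with h | h
  · rw [abs_sub_comm]
    refine (key a b h).trans ?_
    exact_mod_cast (by omega : b - a ≤ D)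
  · refine (key b a h).trans ?_
    exact_mod_cast (by omega : a - b ≤ D)

/-- two ranges whose ends differ by at most `D` -/
theorem Ico_diff (f : ℕ → ℝ) (hf : ∀ n, |f n| ≤ 1) {a b a' b' D : ℕ} (hab : a ≤ b) (hab' : a' ≤ b') (h1 : a ≤ a' + D) (h2 : a' ≤ a + D)
    (h3 : b ≤ b' + D) (h4 : b' ≤ b + D) :
    |∑ n ∈ Finset.Ico a b, f n - ∑ n ∈ Finset.Ico a' b', f n| ≤ 2 * D := by
  rw [Finset.sum_Ico_eq_sub _ hab, Finset.sum_Ico_eq_sub _ hab']
  have e1 := abs_le.mp (range_diff f hf h1 h2)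
  have e2 := abs_le.mp (range_diff f hf h3 h4)
  rw [abs_le]
  constructor <;> linarith [e1.1, e1.2, e2.1, e2.2]

/-- the terms of an arithmetic progression -/
theorem sum_prog (f : ℕ → ℝ) {g : ℕ} (hg : 1 ≤ g) (k : ℕ) {ν₁ ν₂ : ℕ} (hν : ν₁ ≤ ν₂) :
    ∑ n ∈ Finset.Ico ν₁ ν₂, f (g * n + k) = ∑ m ∈ Finset.Ico (g * ν₁ + k) (g * ν₂ + k), if m % g = k % g then f m else 0 := by
  induction ν₂, hν using Nat.le_induction with
  | base => simp
  | succ m hm ih =>
    rw [Finset.sum_Ico_succ_top hm, ih]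
    have h1 : g * ν₁ + k ≤ g * m + k := by nlinarith
    have h2 : g * m + k ≤ g * (m + 1) + k := by nlinarith
    rw [← Finset.sum_Ico_consecutive _ h1 h2]
    congr 1
    have e1 : g * (m + 1) + k = g * m + k + g := by ring
    rw [e1, Finset.sum_Ico_eq_sum_range]
    have e2 : g * m + k + g - (g * m + k) = g := by omega
    rw [e2, Finset.sum_eq_single 0]
    · have e3 : (g * m + k + 0) % g = k % g := by
        rw [add_zero, Nat.mul_add_mod]
      rw [if_pos e3, add_zero]
    · intro j hj hj0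
      rw [Finset.mem_range] at hj
      rw [if_neg]
      intro hc
      have e3 : (g * m + k + j) % g = (k + j) % g := by
        rw [add_assoc, Nat.mul_add_mod]
      rw [e3] at hc
      have h5 : (k + j) ≡ k + 0 [MOD g] := by simpa [Nat.ModEq] using hc
      have h6 : j ≡ 0 [MOD g] := Nat.ModEq.add_left_cancel' k h5
      have h7 : g ∣ j := (Nat.modEq_zero_iff_dvd).mp h6
      exact hj0 (Nat.eq_zero_of_dvd_of_lt h7 hj)
    · intro hc
      exact absurd (Finset.mem_range.mpr hg) hc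

/-! ## Block SH7: one product of `s` Haar functions at the times `g n + κ i`.
`J = {i : q i ≠ 0}`, `κ₀ = min κ on J`, `q' (κ i - κ₀) = q i` on `J`, `0` else; `n ↦ g n + κ₀` maps `Ico ν₁ ν₂` onto the times `≡ κ₀ mod g` in
`Ico (g ν₁ + κ₀) (g ν₂ + κ₀)`, which are the classes `u < Q`, `u ≡ κ₀ mod g`; the ranges differ from `Ico n₁ n₂` by at most `Δ + d` times at both ends -/

theorem shift7 {d s g Q K : ℕ} (hg : 1 ≤ g) (hgQ : g ∣ Q) (hQ : 1 ≤ Q) {κ : Fin s → ℕ} (hκ : Function.Injective κ) (hκd : ∀ i, κ i ≤ d) {n₁ n₂ ν₁ ν₂ Δ : ℕ}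
    (hn : n₁ ≤ n₂) (hν : ν₁ ≤ ν₂) (h1 : g * ν₁ ≤ n₁ + Δ) (h1' : n₁ ≤ g * ν₁ + Δ) (h2 : g * ν₂ ≤ n₂ + Δ) (h2' : n₂ ≤ g * ν₂ + Δ) (y : ℕ → ℝ) {Em : ℝ}
    (hE : 0 ≤ Em)
    (h : ∀ u < Q, ∀ q ∈ Qs d K, sp q ≤ s → |∑ n ∈ Finset.Ico n₁ n₂ with n % Q = u, ∏ i : Fin (d + 1), hr (q i) (y (n + i))| ≤ Em)
    {q : Fin s → ℕ} (hq : ∀ i, q i < 2 ^ K) (hq0 : ∃ i, q i ≠ 0) :
    |∑ n ∈ Finset.Ico ν₁ ν₂, ∏ i : Fin s, hr (q i) (y (g * n + κ i))| ≤ Q * Em + 2 * (Δ + d) := by
  classical
  -- the least time used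
  set J : Finset (Fin s) := Finset.univ.filter fun i => q i ≠ 0 with hJ
  have hJne : J.Nonempty := by
    obtain ⟨i, hi⟩ := hq0
    exact ⟨i, by rw [hJ, Finset.mem_filter]; exact ⟨Finset.mem_univ _, hi⟩⟩
  have hJm : ∀ i, i ∈ J ↔ q i ≠ 0 := fun i => by rw [hJ, Finset.mem_filter]; simp
  obtain ⟨i₀, hi₀J, hi₀⟩ := Finset.exists_min_image J κ hJne
  set κ₀ := κ i₀ with hκ₀
  -- the shifted family
  set f : ℕ → ℕ := fun m => ∑ i, if κ i = κ₀ + m then q i else 0 with hf
  have hfi : ∀ i ∈ J, f (κ i - κ₀) = q i := by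
    intro i hi
    have e1 : κ₀ + (κ i - κ₀) = κ i := by have := hi₀ i hi; omega
    simp only [hf, e1]
    rw [Finset.sum_eq_single i]
    · simp
    · intro j _ hj
      rw [if_neg]
      intro hc
      exact hj (hκ hc)
    · intro hc; exact absurd (Finset.mem_univ _) hc
  have hf0 : ∀ m, f m ≠ 0 → ∃ i ∈ J, κ i = κ₀ + m := by
    intro m hm
    obtain ⟨i, _, hi⟩ := Finset.exists_ne_zero_of_sum_ne_zero hm
    by_cases hc : κ i = κ₀ + m
    · rw [if_pos hc] at hi
      exact ⟨i, (hJm i).mpr hi, hc⟩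
    · rw [if_neg hc] at hi
      exact absurd rfl hi
  have hfK : ∀ m, f m < 2 ^ K := by
    intro m
    by_cases hm : f m = 0
    · rw [hm]; positivity
    · obtain ⟨i, hi, him⟩ := hf0 m hm
      have e1 : m = κ i - κ₀ := by omega
      rw [e1, hfi i hi]
      exact hq i
  set q' : Fin (d + 1) → ℕ := fun m => f m with hq'
  have hmem : q' ∈ Qs d K := by
    rw [Qs, Finset.mem_filter, Fintype.mem_piFinset]
    refine ⟨fun i => Finset.mem_range.mpr (hfK _), ?_⟩
    have e1 : q' 0 = q i₀ := by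
      have e2 := hfi i₀ hi₀J
      rw [← hκ₀, Nat.sub_self] at e2
      simpa [hq'] using e2
    rw [e1]
    exact (hJm i₀).mp hi₀J
  have hsp : sp q' ≤ s := by
    unfold sp
    have hc : (Finset.univ.filter fun m : Fin (d + 1) => q' m ≠ 0).card ≤ J.card := by
      refine Finset.card_le_card_of_injOn (fun m => if hm : q' m ≠ 0 then (hf0 m hm).choose else i₀) ?_ ?_
      · intro m hm
        have hm1 : q' m ≠ 0 := (Finset.mem_filter.mp (Finset.mem_coe.mp hm)).2
        simp only [dif_pos hm1]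
        exact Finset.mem_coe.mpr (hf0 m hm1).choose_spec.1
      · intro m hm m' hm' hmm
        have hm1 : q' m ≠ 0 := (Finset.mem_filter.mp (Finset.mem_coe.mp hm)).2
        have hm2 : q' m' ≠ 0 := (Finset.mem_filter.mp (Finset.mem_coe.mp hm')).2
        simp only [dif_pos hm1, dif_pos hm2] at hmm
        have e1 := (hf0 m hm1).choose_spec.2
        have e2 := (hf0 m' hm2).choose_spec.2
        rw [hmm] at e1
        apply Fin.ext
        omega
    refine hc.trans ?_
    exact (Finset.card_le_univ J).trans (by simp)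
  -- the product of the shifted family
  set P : ℕ → ℝ := fun n => ∏ i : Fin (d + 1), hr (q' i) (y (n + i)) with hP
  have hP1 : ∀ n, |P n| ≤ 1 := fun n => prod_hr_abs_le q' fun i => y (n + i)
  have key : ∀ n, ∏ i : Fin s, hr (q i) (y (g * n + κ i)) = P (g * n + κ₀) := by
    intro n
    have e1 : ∏ i : Fin s, hr (q i) (y (g * n + κ i)) = ∏ i ∈ J, hr (q i) (y (g * n + κ i)) := by
      refine (Finset.prod_subset (Finset.subset_univ J) fun i _ hi => ?_).symm
      have : q i = 0 := by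
        by_contra hc
        exact hi ((hJm i).mpr hc)
      rw [this, hr_zero]
    have e2 : P (g * n + κ₀) = ∏ m ∈ Finset.range (d + 1), hr (f m) (y (g * n + κ₀ + m)) := by
      rw [← Fin.prod_univ_eq_prod_range (fun m => hr (f m) (y (g * n + κ₀ + m))) (d + 1)]
    have e3 : ∏ m ∈ Finset.range (d + 1), hr (f m) (y (g * n + κ₀ + m)) =
        ∏ m ∈ J.image fun i => κ i - κ₀, hr (f m) (y (g * n + κ₀ + m)) := by
      refine (Finset.prod_subset ?_ ?_).symm
      · intro m hm
        obtain ⟨i, hi, rfl⟩ := Finset.mem_image.mp hm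
        rw [Finset.mem_range]
        have := hκd i
        omega
      · intro m _ hm
        have : f m = 0 := by
          by_contra hc
          obtain ⟨i, hi, him⟩ := hf0 m hc
          exact hm (Finset.mem_image.mpr ⟨i, hi, by omega⟩)
        rw [this, hr_zero]
    have e4 : ∏ m ∈ J.image fun i => κ i - κ₀, hr (f m) (y (g * n + κ₀ + m)) = ∏ i ∈ J, hr (q i) (y (g * n + κ i)) := by
      rw [Finset.prod_image]
      · refine Finset.prod_congr rfl fun i hi => ?_
        rw [hfi i hi]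
        have h5 := hi₀ i hi
        have e5 : g * n + κ₀ + (κ i - κ₀) = g * n + κ i := by omega
        rw [e5]
      · intro i hi j hj hij
        have h5 := hi₀ i hi
        have h6 := hi₀ j hj
        simp only at hij
        exact hκ (by omega)
    rw [e1, e2, e3, e4]
  rw [Finset.sum_congr rfl fun n _ => key n, sum_prog P hg κ₀ hν]
  -- all classes
  set F : ℕ → ℝ := fun m => if m % g = κ₀ % g then P m else 0 with hF
  have hF1 : ∀ m, |F m| ≤ 1 := by
    intro m
    simp only [hF]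
    split_ifs
    · exact hP1 m
    · simp
  have hcl : |∑ m ∈ Finset.Ico n₁ n₂, F m| ≤ Q * Em := by
    have hmaps : ∀ m ∈ Finset.Ico n₁ n₂, m % Q ∈ Finset.range Q := fun m _ => Finset.mem_range.mpr (Nat.mod_lt _ hQ)
    rw [← Finset.sum_fiberwise_of_maps_to hmaps F]
    refine (Finset.abs_sum_le_sum_abs _ _).trans ?_
    have hb : ∀ u ∈ Finset.range Q, |∑ m ∈ Finset.Ico n₁ n₂ with m % Q = u, F m| ≤ Em := by
      intro u hu
      have hmod : ∀ m ∈ (Finset.Ico n₁ n₂).filter (fun m => m % Q = u), m % g = u % g := by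
        intro m hm
        have := (Finset.mem_filter.mp hm).2
        rw [← this, Nat.mod_mod_of_dvd m hgQ]
      by_cases hc : u % g = κ₀ % g
      · have e1 : ∑ m ∈ Finset.Ico n₁ n₂ with m % Q = u, F m = ∑ m ∈ Finset.Ico n₁ n₂ with m % Q = u, P m := by
          refine Finset.sum_congr rfl fun m hm => ?_
          simp only [hF]
          rw [if_pos (by rw [hmod m hm, hc])]
        rw [e1]
        exact h u (Finset.mem_range.mp hu) q' hmem hsp
      · have e1 : ∑ m ∈ Finset.Ico n₁ n₂ with m % Q = u, F m = 0 := by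
          refine Finset.sum_eq_zero fun m hm => ?_
          simp only [hF]
          rw [if_neg (by rw [hmod m hm]; exact hc)]
        rw [e1]
        simpa using hE
    refine (Finset.sum_le_sum hb).trans ?_
    simp
  have hκ0d : κ₀ ≤ d := hκd i₀
  have hlo : g * ν₁ + κ₀ ≤ g * ν₂ + κ₀ := by nlinarith
  have hdiff := Ico_diff F hF1 (D := Δ + d) hlo hn (by omega) (by omega) (by omega) (by omega)
  have h5 := abs_le.mp hdiff
  have h6 := abs_le.mp hcl
  push_cast at h5
  rw [abs_le]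
  constructor <;> linarith [h5.1, h5.2, h6.1, h6.2]

end Pool.Agent.Helper94.LD7
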